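import Pool.Agent.Z700.Defs

/-! Z700: the parity of the Gross sum (IND). -/

set_option autoImplicit false

namespace Pool.Agent.Y232.ZI

open Finset Matrix
open Pool.Agent.Z700

theorem ep_val (v : V3) : ep v = 1 ∨ ep v = -1 := by
  unfold ep
  split_ifs
  · exact Or.inl rfl
  · exact Or.inr rfl

theorem split_ep (S : Finset V3) (p : V3 → Prop) [DecidablePred p] (f : V3 → ℤ) :
    ∑ v ∈ S.filter p, f v = ∑ v ∈ S.filter (fun v => p v ∧ ep v = 1), f v +
      ∑ v ∈ S.filter (fun v => p v ∧ ep v = -1), f v := by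
  rw [← Finset.sum_filter_add_sum_filter_not (S.filter p) (fun v => ep v = 1),
    Finset.filter_filter, Finset.filter_filter]
  have h : S.filter (fun v => p v ∧ ¬ ep v = 1) = S.filter (fun v => p v ∧ ep v = -1) := by
    apply Finset.filter_congr
    intro v _
    constructor
    · rintro ⟨h1, h2⟩
      exact ⟨h1, (ep_val v).resolve_left h2⟩
    · rintro ⟨h1, h2⟩
      exact ⟨h1, by rw [h2]; decide⟩
  rw [h]

theorem pii_empty (h1 : S_SG1) : pii ∅ = 1 := by
  have hn : (n0 : Fin 3 → ZMod 7) ≠ 0 := by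
    intro h
    have := congrFun h 0
    revert this
    decide
  have hi : (n0 0) ^ 2 + (n0 1) ^ 2 + (n0 2) ^ 2 = 0 := by decide
  obtain ⟨a, b⟩ := h1 n0 hn hi
  have hs : sgl n0 = 1 := by
    unfold sgl
    rw [if_pos (by decide)]
  rw [if_pos hs] at a b
  have e1 : pii ∅ = Sg 3 n0 2 1 + Sg 3 n0 2 (-1) := by
    unfold pii Sg be pr
    rw [Finset.prod_empty, Finset.prod_empty]
    have e2 : (3 * ((1 : ℕ) : ℤ)) = 3 := by norm_num
    have e3 : (2 * 1 : ZMod 7) = 2 := by decide
    rw [e2, e3]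
    exact split_ep (vec 3) (fun v => Ln n0 2 v) chv
  rw [e1, a, b]
  norm_num

/-! ### symbols -/

theorem sym_comm {p q : ℕ} (hp : Fam p) (hq : Fam q) : jacobiSym q p = jacobiSym p q := by
  have h1 : q % 4 = 1 := by have := hq.2.1; omega
  have h2 : Odd p := by
    rw [Nat.odd_iff]
    have := hp.2.1
    omega
  exact jacobiSym.quadratic_reciprocity_one_mod_four h1 h2

theorem sym_val {p q : ℕ} (hp : Fam p) (hq : Fam q) (h : p ≠ q) :
    jacobiSym q p = 1 ∨ jacobiSym q p = -1 := by
  apply jacobiSym.eq_one_or_neg_one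
  rw [Int.gcd_natCast_natCast]
  exact (Nat.coprime_primes hq.1 hp.1).2 (Ne.symm h)

theorem lres_val (p q : ℕ) : lres p q = 0 ∨ lres p q = 1 := by
  unfold lres
  split_ifs
  · exact Or.inr rfl
  · exact Or.inl rfl

theorem lres_symm (p q : ℕ) : lres p q = lres q p := by
  unfold lres
  simp only [or_comm]

theorem sym_eq {p q : ℕ} (hp : Fam p) (hq : Fam q) (h : p ≠ q) :
    jacobiSym q p = if lres p q = 1 then -1 else 1 := by
  have h1 := sym_comm hp hq
  rcases sym_val hp hq h with h2 | h2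
  · have : lres p q = 0 := by
      unfold lres
      rw [if_neg]
      rw [← h1, h2]
      decide
    rw [this, h2]
    simp
  · have : lres p q = 1 := by
      unfold lres
      rw [if_pos]
      exact Or.inr h2
    rw [this, h2]
    simp

theorem sym_prod {p : ℕ} (hp : Fam p) (J : Finset ℕ) (hJ : ∀ q ∈ J, Fam q) (hpJ : p ∉ J) :
    jacobiSym (pr J) p = if Even (∑ q ∈ J, lres p q) then 1 else -1 := by
  induction J using Finset.induction_on with
  | empty => simp [pr]
  | insert q J hq ih =>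
    have h1 : Fam q := hJ q (mem_insert_self q J)
    have h2 : p ≠ q := fun h => hpJ (h ▸ mem_insert_self q J)
    have ih' := ih (fun r hr => hJ r (mem_insert_of_mem hr)) (fun h => hpJ (mem_insert_of_mem h))
    have e : (pr (insert q J) : ℤ) = (q : ℤ) * (pr J : ℤ) := by
      unfold pr
      rw [prod_insert hq]
      push_cast
      rfl
    rw [e, jacobiSym.mul_left, ih', sym_eq hp h1 h2, sum_insert hq]
    have h5 : Even (lres p q + ∑ x ∈ J, lres p x) ↔ (Even (lres p q) ↔ Even (∑ x ∈ J, lres p x)) :=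
      Int.even_add
    rcases lres_val p q with h3 | h3
    · rw [h3] at h5 ⊢
      rw [if_neg (by decide : ¬ ((0 : ℤ) = 1))]
      by_cases h4 : Even (∑ q ∈ J, lres p q)
      · rw [if_pos h4, if_pos (h5.2 (by simp [h4]))]
        norm_num
      · have h7 : ¬ Even (0 + ∑ x ∈ J, lres p x) := fun h => h4 ((h5.1 h).1 (by decide))
        rw [if_neg h4, if_neg h7]
        norm_num
    · rw [h3] at h5 ⊢
      rw [if_pos rfl]
      have h6 : ¬ Even (1 : ℤ) := by decide
      by_cases h4 : Even (∑ q ∈ J, lres p q)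
      · have h7 : ¬ Even (1 + ∑ x ∈ J, lres p x) := fun h => h6 ((h5.1 h).2 h4)
        rw [if_pos h4, if_neg h7]
        norm_num
      · rw [if_neg h4, if_pos (h5.2 (by simp [h4]))]
        norm_num

theorem sym_one_iff {p : ℕ} (hp : Fam p) (J : Finset ℕ) (hJ : ∀ q ∈ J, Fam q) (hpJ : p ∉ J) :
    jacobiSym (pr J) p = 1 ↔ Even (∑ q ∈ J, lres p q) := by
  rw [sym_prod hp J hJ hpJ]
  by_cases h : Even (∑ q ∈ J, lres p q)
  · simp [h]
  · simp [h]

theorem ker_iff {P : Finset ℕ} (hP : ∀ p ∈ P, Fam p) : KerT P ↔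
    ∀ J ⊆ P, (∀ p ∈ P \ J, Even (∑ q ∈ J, lres p q)) →
      (∀ p ∈ J, Even (∑ q ∈ P \ J, lres p q)) → J = ∅ ∨ J = P := by
  unfold KerT
  have key : ∀ J ⊆ P, ((∀ p ∈ P \ J, jacobiSym (pr J) p = 1) ↔
      (∀ p ∈ P \ J, Even (∑ q ∈ J, lres p q))) ∧
      ((∀ p ∈ J, jacobiSym (pr (P \ J)) p = 1) ↔
      (∀ p ∈ J, Even (∑ q ∈ P \ J, lres p q))) := by
    intro J hJ
    constructor
    · apply forall₂_congr
      intro p hp
      rw [mem_sdiff] at hp
      exact sym_one_iff (hP p hp.1) J (fun q hq => hP q (hJ hq)) hp.2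
    · apply forall₂_congr
      intro p hp
      refine sym_one_iff (hP p (hJ hp)) (P \ J) (fun q hq => hP q (mem_sdiff.1 hq).1) ?_
      intro h
      exact (mem_sdiff.1 h).2 hp
  apply forall₂_congr
  intro J hJ
  rw [(key J hJ).1, (key J hJ).2]

theorem xres_sum (P : Finset ℕ) : ∑ p ∈ P, xres p =
    ((@Finset.filter ℕ (fun p => X2 p) (fun p => Classical.propDecidable (X2 p)) P).card : ℤ) := by
  classical
  unfold xres
  rw [Finset.sum_boole]

theorem Yd_empty (l : ℕ → ℕ → ℤ) (x : ℕ → ℤ) : Yd l x ∅ = 1 := by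
  unfold Yd
  exact Matrix.det_isEmpty

theorem par_aux {N Y S T : ℤ} (h1 : Odd N ↔ Odd (Y + T)) (h2 : Odd S ↔ Odd T) :
    Odd (N - 3 * S) ↔ Odd Y := by
  rw [Int.odd_iff, Int.odd_iff] at h1 h2
  rw [Int.odd_iff, Int.odd_iff]
  omega

/-- **The parity of the Gross sum.** -/
theorem t_IND (h1 : S_SG1) (hb : S_BIL) (hg : S_GEN) (hf : S_FIX) (ht : S_TREE) : S_IND := by
  intro P
  induction P using Finset.strongInduction with
  | H P ih =>
    intro hP hne
    obtain ⟨y, hydef⟩ : ∃ y : Finset ℕ → ℤ, y = fun D => pii D / (3 * 2 ^ D.card) := ⟨_, rfl⟩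
    have hy : ∀ D ⊆ P, D.Nonempty → D ≠ P → pii D = 3 * 2 ^ D.card * y D ∧
        (Odd (y D) ↔ Odd (Yd lres xres D)) := by
      intro D hD hDn hDP
      obtain ⟨z, hz1, hz2⟩ := ih D (Finset.ssubset_iff_subset_ne.2 ⟨hD, hDP⟩)
        (fun p hp => hP p (hD hp)) hDn
      have : y D = z := by
        rw [hydef]
        show pii D / (3 * 2 ^ D.card) = z
        rw [hz1]
        exact Int.mul_ediv_cancel_left _ (by positivity)
      rw [this]
      exact ⟨hz1, hz2⟩
    obtain ⟨N, hN1, hN2⟩ := hg P hP hne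
    rw [hf P hP hne, ker_iff hP] at hN2
    obtain ⟨p0, hp0⟩ := hne
    have htree := ht lres xres lres_symm P p0 hp0
    rw [xres_sum, Int.odd_coe_nat] at htree
    rw [← htree] at hN2
    have hsum : ∑ D ∈ P.powerset, pii D * pii (P \ D) = 6 * (2 ^ P.card * N) := by
      rw [← hN1, mul_sum]
      apply sum_congr rfl
      intro D hD
      have hD' := mem_powerset.1 hD
      refine hb P hP D hD' (P \ D) sdiff_subset (Or.inl disjoint_sdiff) ?_
      by_cases h : p0 ∈ D
      · exact Or.inl ⟨p0, h⟩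
      · exact Or.inr ⟨p0, mem_sdiff.2 ⟨hp0, h⟩⟩
    have hsplit : ∑ D ∈ P.powerset, pii D * pii (P \ D) =
        2 * ∑ D ∈ P.powerset.filter (fun D => p0 ∈ D), pii D * pii (P \ D) := by
      rw [← sum_filter_add_sum_filter_not P.powerset (fun D => p0 ∈ D)]
      have : ∑ D ∈ P.powerset.filter (fun D => ¬ p0 ∈ D), pii D * pii (P \ D) =
          ∑ D ∈ P.powerset.filter (fun D => p0 ∈ D), pii D * pii (P \ D) := by
        refine Finset.sum_bij' (fun D _ => P \ D) (fun D _ => P \ D) ?_ ?_ ?_ ?_ ?_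
        · intro D hD
          rw [mem_filter, mem_powerset] at hD ⊢
          exact ⟨sdiff_subset, mem_sdiff.2 ⟨hp0, hD.2⟩⟩
        · intro D hD
          rw [mem_filter, mem_powerset] at hD ⊢
          exact ⟨sdiff_subset, fun h => (mem_sdiff.1 h).2 hD.2⟩
        · intro D hD
          rw [mem_filter, mem_powerset] at hD
          exact Finset.sdiff_sdiff_eq_self hD.1
        · intro D hD
          rw [mem_filter, mem_powerset] at hD
          exact Finset.sdiff_sdiff_eq_self hD.1
        · intro D hD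
          rw [mem_filter, mem_powerset] at hD
          rw [Finset.sdiff_sdiff_eq_self hD.1, mul_comm]
      rw [this]
      ring
    have hPmem : P ∈ P.powerset.filter (fun D => p0 ∈ D) := by
      rw [mem_filter, mem_powerset]
      exact ⟨Subset.refl P, hp0⟩
    obtain ⟨F, hF⟩ : ∃ F, F = (P.powerset.filter (fun D => p0 ∈ D)).erase P := ⟨_, rfl⟩
    have hFm : ∀ D ∈ F, D ⊆ P ∧ D.Nonempty ∧ D ≠ P ∧ (P \ D).Nonempty ∧ P \ D ≠ P := by
      intro D hD
      rw [hF, mem_erase, mem_filter, mem_powerset] at hD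
      obtain ⟨a1, a2, a3⟩ := hD
      refine ⟨a2, ⟨p0, a3⟩, a1, ?_, ?_⟩
      · rw [Finset.sdiff_nonempty]
        intro h
        exact a1 (Subset.antisymm a2 h)
      · intro h
        rw [← h] at hp0
        exact (mem_sdiff.1 hp0).2 a3
    have hs1 : ∑ D ∈ P.powerset.filter (fun D => p0 ∈ D), pii D * pii (P \ D) =
        pii P + 9 * 2 ^ P.card * ∑ D ∈ F, y D * y (P \ D) := by
      rw [← Finset.add_sum_erase _ _ hPmem, sdiff_self, ← hF, mul_sum]
      have e0 : pii P * pii ∅ = pii P := by rw [pii_empty h1, mul_one]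
      have e0' : pii P * pii (⊥ : Finset ℕ) = pii P := e0
      rw [e0']
      congr 1
      apply sum_congr rfl
      intro D hD
      obtain ⟨a1, a2, a3, a4, a5⟩ := hFm D hD
      rw [(hy D a1 a2 a3).1, (hy (P \ D) sdiff_subset a4 a5).1]
      have hc : (2 : ℤ) ^ P.card = 2 ^ D.card * 2 ^ (P \ D).card := by
        rw [← pow_add]
        congr 1
        rw [card_sdiff_of_subset a1]
        have := card_le_card a1
        omega
      rw [hc]
      ring
    have hs2 : ∑ S ∈ P.powerset.filter (fun S => p0 ∈ S), Yd lres xres S * Yd lres xres (P \ S) =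
        Yd lres xres P + ∑ D ∈ F, Yd lres xres D * Yd lres xres (P \ D) := by
      rw [← Finset.add_sum_erase _ _ hPmem, sdiff_self, ← hF]
      have e0 : Yd lres xres P * Yd lres xres (⊥ : Finset ℕ) = Yd lres xres P := by
        have : Yd lres xres (⊥ : Finset ℕ) = 1 := Yd_empty lres xres
        rw [this, mul_one]
      rw [e0]
    refine ⟨N - 3 * ∑ D ∈ F, y D * y (P \ D), ?_, ?_⟩
    · have h2 : 2 * (pii P + 9 * 2 ^ P.card * ∑ D ∈ F, y D * y (P \ D)) =
          6 * (2 ^ P.card * N) := by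
        rw [← hs1, ← hsplit, hsum]
      linarith
    · rw [hs2] at hN2
      have hcong : (Odd (∑ D ∈ F, y D * y (P \ D)) ↔
          Odd (∑ D ∈ F, Yd lres xres D * Yd lres xres (P \ D))) := by
        have hz : ((∑ D ∈ F, y D * y (P \ D) : ℤ) : ZMod 2) =
            ((∑ D ∈ F, Yd lres xres D * Yd lres xres (P \ D) : ℤ) : ZMod 2) := by
          push_cast
          apply sum_congr rfl
          intro D hD
          obtain ⟨a1, a2, a3, a4, a5⟩ := hFm D hD
          have q : ∀ a b : ℤ, (Odd a ↔ Odd b) → (a : ZMod 2) = (b : ZMod 2) := by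
            intro a b hab
            rw [ZMod.intCast_eq_intCast_iff_dvd_sub]
            push_cast
            have : Even (b - a) := by
              rw [Int.even_sub, ← Int.not_odd_iff_even, ← Int.not_odd_iff_even, hab]
            exact even_iff_two_dvd.1 this
          rw [q _ _ (hy D a1 a2 a3).2, q _ _ (hy (P \ D) sdiff_subset a4 a5).2]
        rw [ZMod.intCast_eq_intCast_iff_dvd_sub] at hz
        have h3 : Even (∑ D ∈ F, Yd lres xres D * Yd lres xres (P \ D) -
            ∑ D ∈ F, y D * y (P \ D)) := by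
          rw [even_iff_two_dvd]
          exact_mod_cast hz
        rw [Int.even_sub] at h3
        rw [← Int.not_even_iff_odd, ← Int.not_even_iff_odd, h3]
      clear * - hN2 hcong
      obtain ⟨S, hS⟩ : ∃ S, S = ∑ D ∈ F, y D * y (P \ D) := ⟨_, rfl⟩
      obtain ⟨T, hT⟩ : ∃ T, T = ∑ D ∈ F, Yd lres xres D * Yd lres xres (P \ D) := ⟨_, rfl⟩
      rw [← hS, ← hT] at hcong
      rw [← hT] at hN2
      rw [← hS]
      exact par_aux hN2 hcong

end Pool.Agent.Y232.ZI
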