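import Pool.Agent.Z700.Defs3
import Pool.Agent.Y232.ZI.Ind
import Pool.Agent.Z179.TREE

/-! Z701: the parity of the Gross sum, general family (IND). -/

set_option autoImplicit false

namespace Pool.Agent.Y232.ZJ

open Finset Matrix
open Pool.Agent.Z700 (V3 vec chv Ln n0 ep sgl Sg pr X2 Yd lres xres S_SG1 S_TREE)
open Pool.Agent.Z701
open Pool.Agent.Y232.ZI (ep_val split_ep lres_val lres_symm xres_sum Yd_empty par_aux)

theorem pii_empty3 (h1 : S_SG1) : pii ∅ = 1 := by
  have hn : (n0 : Fin 3 → ZMod 7) ≠ 0 := by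
    intro h
    have := congrFun h 0
    revert this
    decide
  have hi : (n0 0) ^ 2 + (n0 1) ^ 2 + (n0 2) ^ 2 = 0 := by decide
  obtain ⟨a, b⟩ := h1 n0 hn hi
  have hs : sgl n0 = 1 := by
    unfold sgl
    rw [if_pos (by decide)]
  rw [if_pos hs] at a b
  have hbe : be ∅ = 2 := by
    unfold be inr
    simp
  have e1 : pii ∅ = Sg 3 n0 2 1 + Sg 3 n0 2 (-1) := by
    unfold pii Sg
    rw [hbe]
    have e2 : (3 * ((pr ∅ : ℕ) : ℤ)) = 3 := by
      unfold pr
      rw [Finset.prod_empty]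
      norm_num
    rw [e2]
    exact split_ep (vec 3) (fun v => Ln n0 2 v) chv
  rw [e1, a, b]
  norm_num

/-! ### symbols -/

theorem sym_comm {p q : ℕ} (hp : Sp p) (hq : Sp q) : jacobiSym q p = jacobiSym p q := by
  have h1 : q % 4 = 1 := by have := hq.2.1; omega
  have h2 : Odd p := by
    rw [Nat.odd_iff]
    have := hp.2.1
    omega
  exact jacobiSym.quadratic_reciprocity_one_mod_four h1 h2

theorem sym_val {p q : ℕ} (hp : Sp p) (hq : Sp q) (h : p ≠ q) :
    jacobiSym q p = 1 ∨ jacobiSym q p = -1 := by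
  apply jacobiSym.eq_one_or_neg_one
  rw [Int.gcd_natCast_natCast]
  exact (Nat.coprime_primes hq.1 hp.1).2 (Ne.symm h)

theorem sym_eq {p q : ℕ} (hp : Sp p) (hq : Sp q) (h : p ≠ q) :
    jacobiSym q p = if lres p q = 1 then -1 else 1 := by
  have h1 := sym_comm hp hq
  rcases sym_val hp hq h with h2 | h2
  · have : lres p q = 0 := by
      unfold lres
      rw [if_neg]
      rw [← h1, h2]
      decide
    rw [this, h2]
    simp
  · have : lres p q = 1 := by
      unfold lres
      rw [if_pos]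
      exact Or.inr h2
    rw [this, h2]
    simp

theorem sym_prod {p : ℕ} (hp : Sp p) (J : Finset ℕ) (hJ : ∀ q ∈ J, Sp q) (hpJ : p ∉ J) :
    jacobiSym (pr J) p = if Even (∑ q ∈ J, lres p q) then 1 else -1 := by
  induction J using Finset.induction_on with
  | empty => simp [pr]
  | insert q J hq ih =>
    have h1 : Sp q := hJ q (mem_insert_self q J)
    have h2 : p ≠ q := fun h => hpJ (h ▸ mem_insert_self q J)
    have ih' := ih (fun r hr => hJ r (mem_insert_of_mem hr)) (fun h => hpJ (mem_insert_of_mem h))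
    have e : (pr (insert q J) : ℤ) = (q : ℤ) * (pr J : ℤ) := by
      unfold pr
      rw [prod_insert hq]
      push_cast
      rfl
    rw [e, jacobiSym.mul_left, ih', sym_eq hp h1 h2, sum_insert hq]
    have h5 : Even (lres p q + ∑ x ∈ J, lres p x) ↔ (Even (lres p q) ↔ Even (∑ x ∈ J, lres p x)) :=
      Int.even_add
    rcases lres_val p q with h3 | h3
    · rw [h3] at h5 ⊢
      rw [if_neg (by decide : ¬ ((0 : ℤ) = 1))]
      by_cases h4 : Even (∑ q ∈ J, lres p q)
      · rw [if_pos h4, if_pos (h5.2 (by simp [h4]))]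
        norm_num
      · have h7 : ¬ Even (0 + ∑ x ∈ J, lres p x) := fun h => h4 ((h5.1 h).1 (by decide))
        rw [if_neg h4, if_neg h7]
        norm_num
    · rw [h3] at h5 ⊢
      rw [if_pos rfl]
      have h6 : ¬ Even (1 : ℤ) := by decide
      by_cases h4 : Even (∑ q ∈ J, lres p q)
      · have h7 : ¬ Even (1 + ∑ x ∈ J, lres p x) := fun h => h6 ((h5.1 h).2 h4)
        rw [if_pos h4, if_neg h7]
        norm_num
      · rw [if_neg h4, if_pos (h5.2 (by simp [h4]))]
        norm_num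

theorem sym_one_iff {p : ℕ} (hp : Sp p) (J : Finset ℕ) (hJ : ∀ q ∈ J, Sp q) (hpJ : p ∉ J) :
    jacobiSym (pr J) p = 1 ↔ Even (∑ q ∈ J, lres p q) := by
  rw [sym_prod hp J hJ hpJ]
  by_cases h : Even (∑ q ∈ J, lres p q)
  · simp [h]
  · simp [h]

theorem ker_iff {P : Finset ℕ} (hP : ∀ p ∈ P, Sp p) : KerT P ↔
    ∀ J ⊆ P, (∀ p ∈ P \ J, Even (∑ q ∈ J, lres p q)) →
      (∀ p ∈ J, Even (∑ q ∈ P \ J, lres p q)) → J = ∅ ∨ J = P := by
  unfold KerT Pool.Agent.Z700.KerT
  have key : ∀ J ⊆ P, ((∀ p ∈ P \ J, jacobiSym (pr J) p = 1) ↔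
      (∀ p ∈ P \ J, Even (∑ q ∈ J, lres p q))) ∧
      ((∀ p ∈ J, jacobiSym (pr (P \ J)) p = 1) ↔
      (∀ p ∈ J, Even (∑ q ∈ P \ J, lres p q))) := by
    intro J hJ
    constructor
    · apply forall₂_congr
      intro p hp
      rw [mem_sdiff] at hp
      exact sym_one_iff (hP p hp.1) J (fun q hq => hP q (hJ hq)) hp.2
    · apply forall₂_congr
      intro p hp
      refine sym_one_iff (hP p (hJ hp)) (P \ J) (fun q hq => hP q (mem_sdiff.1 hq).1) ?_
      intro h
      exact (mem_sdiff.1 h).2 hp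
  apply forall₂_congr
  intro J hJ
  rw [(key J hJ).1, (key J hJ).2]

/-! ### admissible splittings -/

theorem mem_adm {P D : Finset ℕ} : D ∈ adm P ↔ D ⊆ P ∧ Even (inr D).card := by
  unfold adm
  rw [mem_filter, mem_powerset]

theorem inr_mono {D P : Finset ℕ} (h : D ⊆ P) : inr D ⊆ inr P := filter_subset_filter _ h

theorem spl_mono {D P : Finset ℕ} (h : D ⊆ P) : spl D ⊆ spl P := filter_subset_filter _ h

theorem inr_sdiff (P D : Finset ℕ) : inr (P \ D) = inr P \ inr D := by
  ext p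
  simp only [inr, mem_filter, mem_sdiff]
  constructor
  · rintro ⟨⟨a, b⟩, c⟩
    exact ⟨⟨a, c⟩, fun h => b h.1⟩
  · rintro ⟨⟨a, c⟩, b⟩
    exact ⟨⟨a, fun h => b ⟨h, c⟩⟩, c⟩

theorem spl_sdiff (P D : Finset ℕ) : spl (P \ D) = spl P \ spl D := by
  ext p
  simp only [spl, mem_filter, mem_sdiff]
  constructor
  · rintro ⟨⟨a, b⟩, c⟩
    exact ⟨⟨a, c⟩, fun h => b h.1⟩
  · rintro ⟨⟨a, c⟩, b⟩
    exact ⟨⟨a, fun h => b ⟨h, c⟩⟩, c⟩

theorem even_sdiff {P D : Finset ℕ} (hP : Even (inr P).card) (hD : D ⊆ P)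
    (he : Even (inr D).card) : Even (inr (P \ D)).card := by
  rw [inr_sdiff, card_sdiff_of_subset (inr_mono hD)]
  rw [Nat.even_iff] at *
  omega

theorem Gd_sub {P D : Finset ℕ} (hP : Gd P) (hD : D ⊆ P) (he : Even (inr D).card) : Gd D :=
  ⟨fun p hp => hP.1 p (hD hp), he⟩

/-- the exponent -/
def eE (D : Finset ℕ) : ℕ := (spl D).card + (inr D).card / 2

theorem eE_add {P D : Finset ℕ} (hD : D ⊆ P) (he : Even (inr D).card) :
    eE P = eE D + eE (P \ D) := by
  unfold eE
  rw [inr_sdiff, spl_sdiff, card_sdiff_of_subset (inr_mono hD), card_sdiff_of_subset (spl_mono hD)]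
  have h1 := card_le_card (inr_mono hD)
  have h2 := card_le_card (spl_mono hD)
  rw [Nat.even_iff] at he
  omega

/-- the expected parity -/
noncomputable def zz (D : Finset ℕ) : ℤ := Yd lres (fun p => xres p + ind (inr D) p) (spl D)

theorem zz_empty : zz ∅ = 1 := by
  unfold zz
  have : spl ∅ = ∅ := by
    unfold spl
    rw [filter_empty]
  rw [this]
  exact Yd_empty lres _

theorem odd_congr {ι : Type*} (F : Finset ι) (f g : ι → ℤ) (h : ∀ i ∈ F, (2 : ℤ) ∣ f i - g i) :
    Odd (∑ i ∈ F, f i) ↔ Odd (∑ i ∈ F, g i) := by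
  have h1 : (2 : ℤ) ∣ ∑ i ∈ F, f i - ∑ i ∈ F, g i := by
    rw [← sum_sub_distrib]
    exact dvd_sum h
  rw [Int.odd_iff, Int.odd_iff]
  omega

theorem dvd_of_odd {a b : ℤ} (h : Odd a ↔ Odd b) : (2 : ℤ) ∣ a - b := by
  rw [Int.odd_iff, Int.odd_iff] at h
  omega

/-- the induction step, for a normalized value of the sum over the splittings -/
theorem core (h1 : S_SG1) (hb : S_BIL) {P : Finset ℕ} (hP : Gd P) {p0 : ℕ} (hp0 : p0 ∈ P)
    (ih : ∀ D ⊂ P, Gd D → D.Nonempty → ∃ y : ℤ, pii D = 3 * 2 ^ eE D * y ∧ (Odd y ↔ Odd (zz D)))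
    {M : ℤ} (hM : ∑ D ∈ adm P, RR D (P \ D) = 2 ^ eE P * M)
    (hMT : Odd M ↔ Odd (∑ D ∈ (adm P).filter (fun D => p0 ∈ D), zz D * zz (P \ D))) :
    ∃ y : ℤ, pii P = 3 * 2 ^ eE P * y ∧ (Odd y ↔ Odd (zz P)) := by
  classical
  obtain ⟨y, hydef⟩ : ∃ y : Finset ℕ → ℤ, y = fun D => pii D / (3 * 2 ^ eE D) := ⟨_, rfl⟩
  have hy : ∀ D ⊆ P, Even (inr D).card → D.Nonempty → D ≠ P → pii D = 3 * 2 ^ eE D * y D ∧
      (Odd (y D) ↔ Odd (zz D)) := by
    intro D hD hDe hDn hDP
    obtain ⟨z, hz1, hz2⟩ := ih D (Finset.ssubset_iff_subset_ne.2 ⟨hD, hDP⟩)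
      (Gd_sub hP hD hDe) hDn
    have : y D = z := by
      rw [hydef]
      show pii D / (3 * 2 ^ eE D) = z
      rw [hz1]
      exact Int.mul_ediv_cancel_left _ (by positivity)
    rw [this]
    exact ⟨hz1, hz2⟩
  have hsum : ∑ D ∈ adm P, pii D * pii (P \ D) = 6 * (2 ^ eE P * M) := by
    rw [← hM, mul_sum]
    apply sum_congr rfl
    intro D hD
    have hD' := mem_adm.1 hD
    refine hb D (P \ D) ⟨Gd_sub hP hD'.1 hD'.2, Gd_sub hP sdiff_subset
      (even_sdiff hP.2 hD'.1 hD'.2), Or.inl disjoint_sdiff, ?_⟩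
    by_cases h : p0 ∈ D
    · exact Or.inl ⟨p0, h⟩
    · exact Or.inr ⟨p0, mem_sdiff.2 ⟨hp0, h⟩⟩
  have hsplit : ∑ D ∈ adm P, pii D * pii (P \ D) =
      2 * ∑ D ∈ (adm P).filter (fun D => p0 ∈ D), pii D * pii (P \ D) := by
    rw [← sum_filter_add_sum_filter_not (adm P) (fun D => p0 ∈ D)]
    have : ∑ D ∈ (adm P).filter (fun D => ¬ p0 ∈ D), pii D * pii (P \ D) =
        ∑ D ∈ (adm P).filter (fun D => p0 ∈ D), pii D * pii (P \ D) := by
      refine Finset.sum_bij' (fun D _ => P \ D) (fun D _ => P \ D) ?_ ?_ ?_ ?_ ?_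
      · intro D hD
        rw [mem_filter, mem_adm] at hD ⊢
        exact ⟨⟨sdiff_subset, even_sdiff hP.2 hD.1.1 hD.1.2⟩, mem_sdiff.2 ⟨hp0, hD.2⟩⟩
      · intro D hD
        rw [mem_filter, mem_adm] at hD ⊢
        exact ⟨⟨sdiff_subset, even_sdiff hP.2 hD.1.1 hD.1.2⟩, fun h => (mem_sdiff.1 h).2 hD.2⟩
      · intro D hD
        rw [mem_filter, mem_adm] at hD
        exact Finset.sdiff_sdiff_eq_self hD.1.1
      · intro D hD
        rw [mem_filter, mem_adm] at hD
        exact Finset.sdiff_sdiff_eq_self hD.1.1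
      · intro D hD
        rw [mem_filter, mem_adm] at hD
        rw [Finset.sdiff_sdiff_eq_self hD.1.1, mul_comm]
    rw [this]
    ring
  have hPmem : P ∈ (adm P).filter (fun D => p0 ∈ D) := by
    rw [mem_filter, mem_adm]
    exact ⟨⟨Subset.refl P, hP.2⟩, hp0⟩
  obtain ⟨F, hF⟩ : ∃ F, F = ((adm P).filter (fun D => p0 ∈ D)).erase P := ⟨_, rfl⟩
  have hFm : ∀ D ∈ F, D ⊆ P ∧ D.Nonempty ∧ D ≠ P ∧ (P \ D).Nonempty ∧ P \ D ≠ P ∧
      Even (inr D).card := by
    intro D hD
    rw [hF, mem_erase, mem_filter, mem_adm] at hD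
    obtain ⟨a1, ⟨a2, a4⟩, a3⟩ := hD
    refine ⟨a2, ⟨p0, a3⟩, a1, ?_, ?_, a4⟩
    · rw [Finset.sdiff_nonempty]
      intro h
      exact a1 (Subset.antisymm a2 h)
    · intro h
      rw [← h] at hp0
      exact (mem_sdiff.1 hp0).2 a3
  have hs1 : ∑ D ∈ (adm P).filter (fun D => p0 ∈ D), pii D * pii (P \ D) =
      pii P + 9 * 2 ^ eE P * ∑ D ∈ F, y D * y (P \ D) := by
    rw [← Finset.add_sum_erase _ _ hPmem, sdiff_self, ← hF, mul_sum]
    have e0 : pii P * pii ∅ = pii P := by rw [pii_empty3 h1, mul_one]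
    have e0' : pii P * pii (⊥ : Finset ℕ) = pii P := e0
    rw [e0']
    congr 1
    apply sum_congr rfl
    intro D hD
    obtain ⟨a1, a2, a3, a4, a5, a6⟩ := hFm D hD
    rw [(hy D a1 a6 a2 a3).1, (hy (P \ D) sdiff_subset (even_sdiff hP.2 a1 a6) a4 a5).1]
    have hc : (2 : ℤ) ^ eE P = 2 ^ eE D * 2 ^ eE (P \ D) := by
      rw [← pow_add, eE_add a1 a6]
    rw [hc]
    ring
  have hs2 : ∑ S ∈ (adm P).filter (fun S => p0 ∈ S), zz S * zz (P \ S) =
      zz P + ∑ D ∈ F, zz D * zz (P \ D) := by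
    rw [← Finset.add_sum_erase _ _ hPmem, sdiff_self, ← hF]
    have e0 : zz P * zz (⊥ : Finset ℕ) = zz P := by
      have : zz (⊥ : Finset ℕ) = 1 := zz_empty
      rw [this, mul_one]
    rw [e0]
  refine ⟨M - 3 * ∑ D ∈ F, y D * y (P \ D), ?_, ?_⟩
  · have h2 : 2 * (pii P + 9 * 2 ^ eE P * ∑ D ∈ F, y D * y (P \ D)) =
        6 * (2 ^ eE P * M) := by
      rw [← hs1, ← hsplit, hsum]
    linarith
  · rw [hs2] at hMT
    have hcong : (Odd (∑ D ∈ F, y D * y (P \ D)) ↔ Odd (∑ D ∈ F, zz D * zz (P \ D))) := by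
      apply odd_congr
      intro D hD
      obtain ⟨a1, a2, a3, a4, a5, a6⟩ := hFm D hD
      have q1 := dvd_of_odd (hy D a1 a6 a2 a3).2
      have q2 := dvd_of_odd (hy (P \ D) sdiff_subset (even_sdiff hP.2 a1 a6) a4 a5).2
      have e : y D * y (P \ D) - zz D * zz (P \ D) =
          (y D - zz D) * y (P \ D) + zz D * (y (P \ D) - zz (P \ D)) := by ring
      rw [e]
      exact dvd_add (Dvd.dvd.mul_right q1 _) (Dvd.dvd.mul_left q2 _)
    exact par_aux hMT hcong

/-! ### inert primes -/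

theorem ind_sdiff {S R : Finset ℕ} (h : S ⊆ R) (k : ℕ) : ind S k + ind (R \ S) k = ind R k := by
  unfold ind
  rw [add_comm]
  exact sum_sdiff h

theorem inr_un {P S Q : Finset ℕ} (hS : S ⊆ inr P) (hQ : Q ⊆ spl P) : inr (S ∪ Q) = S := by
  ext p
  unfold inr
  rw [mem_filter, mem_union]
  constructor
  · rintro ⟨h1 | h1, h2⟩
    · exact h1
    · have := (mem_filter.1 (hQ h1)).2
      omega
  · intro h
    exact ⟨Or.inl h, (mem_filter.1 (hS h)).2⟩

theorem spl_un {P S Q : Finset ℕ} (hS : S ⊆ inr P) (hQ : Q ⊆ spl P) : spl (S ∪ Q) = Q := by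
  ext p
  unfold spl
  rw [mem_filter, mem_union]
  constructor
  · rintro ⟨h1 | h1, h2⟩
    · have := (mem_filter.1 (hS h1)).2
      omega
    · exact h1
  · intro h
    exact ⟨Or.inr h, (mem_filter.1 (hQ h)).2⟩

theorem un_eq {P D : Finset ℕ} (hP : Gd P) (hD : D ⊆ P) : inr D ∪ spl D = D := by
  ext p
  unfold inr spl
  rw [mem_union, mem_filter, mem_filter]
  constructor
  · rintro (h | h)
    · exact h.1
    · exact h.1
  · intro h
    rcases hP.1 p (hD h) with h1 | h1
    · exact Or.inr ⟨h, h1.2.1⟩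
    · exact Or.inl ⟨h, h1.2.1⟩

theorem sum_adm {P : Finset ℕ} (hP : Gd P) {q0 : ℕ} (hq0 : q0 ∈ inr P)
    (f : Finset ℕ → Finset ℕ → ℤ) :
    ∑ D ∈ (adm P).filter (fun D => q0 ∈ D), f (inr D) (spl D) =
      ∑ S ∈ (inr P).powerset.filter (fun S => q0 ∈ S ∧ Even S.card),
        ∑ Q ∈ (spl P).powerset, f S Q := by
  rw [← Finset.sum_product']
  have hq8 : q0 % 8 = 5 := (mem_filter.1 hq0).2
  refine Finset.sum_bij' (fun D _ => (inr D, spl D)) (fun x _ => x.1 ∪ x.2) ?_ ?_ ?_ ?_ ?_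
  · intro D hD
    rw [mem_filter, mem_adm] at hD
    rw [mem_product, mem_filter, mem_powerset, mem_powerset]
    exact ⟨⟨inr_mono hD.1.1, mem_filter.2 ⟨hD.2, hq8⟩, hD.1.2⟩, spl_mono hD.1.1⟩
  · rintro ⟨S, Q⟩ hx
    rw [mem_product, mem_filter, mem_powerset, mem_powerset] at hx
    obtain ⟨⟨a1, a2, a3⟩, a4⟩ := hx
    simp only at a1 a2 a3 a4
    rw [mem_filter, mem_adm]
    refine ⟨⟨union_subset (a1.trans (filter_subset _ _)) (a4.trans (filter_subset _ _)), ?_⟩,
      mem_union_left _ a2⟩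
    show Even (inr (S ∪ Q)).card
    rw [inr_un a1 a4]
    exact a3
  · intro D hD
    rw [mem_filter, mem_adm] at hD
    exact un_eq hP hD.1.1
  · rintro ⟨S, Q⟩ hx
    rw [mem_product, mem_filter, mem_powerset, mem_powerset] at hx
    obtain ⟨⟨a1, a2, a3⟩, a4⟩ := hx
    simp only at a1 a2 a3 a4
    show (inr (S ∪ Q), spl (S ∪ Q)) = (S, Q)
    rw [inr_un a1 a4, spl_un a1 a4]
  · intro D hD
    rfl

theorem tot_par {P : Finset ℕ} (hP : Gd P) {q0 : ℕ} (hq0 : q0 ∈ inr P) :
    (2 : ℤ) ∣ ∑ D ∈ (adm P).filter (fun D => q0 ∈ D), zz D * zz (P \ D) -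
      (((inr P).powerset.filter (fun S => q0 ∈ S ∧ Even S.card)).card : ℤ) *
        Yd lres (ind (inr P)) (spl P) := by
  have h1 : ∑ D ∈ (adm P).filter (fun D => q0 ∈ D), zz D * zz (P \ D) =
      ∑ D ∈ (adm P).filter (fun D => q0 ∈ D),
        (fun S Q : Finset ℕ => Yd lres (fun p => xres p + ind S p) Q *
          Yd lres (fun p => xres p + ind (inr P \ S) p) (spl P \ Q)) (inr D) (spl D) := by
    apply sum_congr rfl
    intro D _
    unfold zz
    rw [inr_sdiff, spl_sdiff]
  have h2 := sum_adm hP hq0 (fun S Q : Finset ℕ => Yd lres (fun p => xres p + ind S p) Q *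
          Yd lres (fun p => xres p + ind (inr P \ S) p) (spl P \ Q))
  rw [h1, h2, ← nsmul_eq_mul, ← sum_const, ← sum_sub_distrib]
  apply dvd_sum
  intro S hS
  rw [mem_filter, mem_powerset] at hS
  have h3 := Pool.Agent.Z179.yd_add lres (spl P).card (spl P) rfl
    (fun p => xres p + ind S p) (fun p => xres p + ind (inr P \ S) p)
  show (2 : ℤ) ∣ ∑ Q ∈ (spl P).powerset, Yd lres (fun p => xres p + ind S p) Q *
          Yd lres (fun p => xres p + ind (inr P \ S) p) (spl P \ Q) - _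
  rw [← h3]
  apply Pool.Agent.Z179.yd_par
  intro k _
  have h4 := ind_sdiff hS.1 k
  refine ⟨xres k, ?_⟩
  show xres k + ind S k + (xres k + ind (inr P \ S) k) - ind (inr P) k = 2 * xres k
  linarith

theorem card_two {R : Finset ℕ} {q0 : ℕ} (hq0 : q0 ∈ R) (h2 : R.card = 2) :
    (R.powerset.filter (fun S => q0 ∈ S ∧ Even S.card)).card = 1 := by
  rw [card_eq_one]
  refine ⟨R, ?_⟩
  ext S
  rw [mem_filter, mem_powerset, mem_singleton]
  constructor
  · rintro ⟨a1, a2, a3⟩
    apply eq_of_subset_of_card_le a1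
    have : 0 < S.card := card_pos.2 ⟨q0, a2⟩
    rw [Nat.even_iff] at a3
    omega
  · rintro rfl
    exact ⟨Subset.refl _, hq0, by rw [h2]; decide⟩

theorem card_four {R : Finset ℕ} {q0 : ℕ} (hq0 : q0 ∈ R) (h3 : 3 ≤ R.card) :
    Even ((R.powerset.filter (fun S => q0 ∈ S ∧ Even S.card)).card) := by
  have h1 : 1 < (R.erase q0).card := by
    rw [card_erase_of_mem hq0]
    omega
  obtain ⟨q1, hq1, q2, hq2, h12⟩ := one_lt_card.1 h1
  rw [mem_erase] at hq1 hq2
  obtain ⟨B, hB⟩ : ∃ B : Finset ℕ, B = {q1, q2} := ⟨_, rfl⟩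
  have hBc : B.card = 2 := by rw [hB, card_pair h12]
  have hBR : B ⊆ R := by
    rw [hB]
    intro x hx
    rw [mem_insert, mem_singleton] at hx
    rcases hx with rfl | rfl
    · exact hq1.2
    · exact hq2.2
  have hBq : q0 ∉ B := by
    rw [hB, mem_insert, mem_singleton]
    rintro (h | h)
    · exact hq1.1 h.symm
    · exact hq2.1 h.symm
  have hBn : B ≠ ∅ := by
    intro h
    rw [h] at hBc
    simp at hBc
  have key : ∑ S ∈ R.powerset.filter (fun S => q0 ∈ S ∧ Even S.card), (1 : ZMod 2) = 0 := by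
    refine Finset.sum_involution (fun S _ => (S \ B) ∪ (B \ S)) ?_ ?_ ?_ ?_
    · intro S _
      decide
    · intro S _ _ h
      apply hBn
      have hk : ∀ x, x ∈ (S \ B) ∪ (B \ S) ↔ x ∈ S := fun x => by rw [h]
      rw [eq_empty_iff_forall_notMem]
      intro x hx
      have hx2 := hk x
      rw [mem_union, mem_sdiff, mem_sdiff] at hx2
      by_cases hxS : x ∈ S
      · rcases hx2.2 hxS with h5 | h5
        · exact h5.2 hx
        · exact h5.2 hxS
      · exact hxS (hx2.1 (Or.inr ⟨hx, hxS⟩))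
    · intro S hS
      rw [mem_filter, mem_powerset] at hS ⊢
      obtain ⟨a1, a2, a3⟩ := hS
      refine ⟨union_subset (sdiff_subset.trans a1) (sdiff_subset.trans hBR),
        mem_union_left _ (mem_sdiff.2 ⟨a2, hBq⟩), ?_⟩
      rw [card_union_of_disjoint (by
        rw [disjoint_left]
        intro x hx hx2
        exact (mem_sdiff.1 hx2).2 (mem_sdiff.1 hx).1)]
      have e1 := card_sdiff_add_card_inter S B
      have e2 := card_sdiff_add_card_inter B S
      rw [inter_comm B S] at e2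
      rw [Nat.even_iff] at a3 ⊢
      omega
    · intro S _
      ext x
      simp only [mem_union, mem_sdiff]
      by_cases a : x ∈ S
      · by_cases b : x ∈ B
        · simp [a, b]
        · simp [a, b]
      · by_cases b : x ∈ B
        · simp [a, b]
        · simp [a, b]
  rw [sum_const, nsmul_eq_mul, mul_one] at key
  rwa [ZMod.natCast_eq_zero_iff, ← even_iff_two_dvd] at key

theorem card_split {P : Finset ℕ} (hP : Gd P) : P.card = (spl P).card + (inr P).card := by
  have h := un_eq hP (Subset.refl P)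
  have hd : Disjoint (inr P) (spl P) := by
    rw [disjoint_left]
    intro x h1 h2
    have a1 := (mem_filter.1 h1).2
    have a2 := (mem_filter.1 h2).2
    omega
  have h2 := card_union_of_disjoint hd
  rw [h] at h2
  omega

/-- **The parity of the Gross sum, general family.** -/
theorem t_IND (h1 : Pool.Agent.Z700.S_SG1) (hb : S_BIL) (hg : S_GEN) (hf0 : S_FIX0)
    (hf2 : S_FIX2) (ht : Pool.Agent.Z700.S_TREE) : Pool.Agent.Z701.S_IND := by
  classical
  intro P
  induction P using Finset.strongInduction with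
  | H P ih =>
    intro hP hne
    obtain ⟨N, hN1, hN2⟩ := hg P hP hne
    by_cases hr : inr P = ∅
    · -- no inert primes
      have hSp : ∀ p ∈ P, Sp p := by
        intro p hp
        rcases hP.1 p hp with h | h
        · exact h
        · exfalso
          have : p ∈ inr P := mem_filter.2 ⟨hp, h.2.1⟩
          rw [hr] at this
          simp at this
      have hinr : ∀ D ⊆ P, inr D = ∅ := by
        intro D hD
        have := inr_mono hD
        rw [hr] at this
        exact subset_empty.1 this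
      have hspl : ∀ D ⊆ P, spl D = D := by
        intro D hD
        have h := un_eq hP hD
        rw [hinr D hD, empty_union] at h
        exact h
      have hz : ∀ D ⊆ P, zz D = Yd lres xres D := by
        intro D hD
        unfold zz
        rw [hinr D hD, hspl D hD]
        congr 1
        funext p
        unfold ind
        rw [sum_empty, add_zero]
      obtain ⟨p0, hp0⟩ := hne
      have hadm : adm P = P.powerset := by
        ext D
        rw [mem_adm, mem_powerset]
        constructor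
        · exact fun h => h.1
        · intro h
          refine ⟨h, ?_⟩
          rw [hinr D h]
          decide
      have hex : ex P = eE P := by
        unfold ex eE
        rw [if_pos hr, hr, hspl P (Subset.refl P)]
        simp
      rw [hex] at hN1
      refine core h1 hb hP hp0 (fun D hD hG hn => ih D hD hG hn) hN1 ?_
      rw [hN2, hf0 P hSp ⟨p0, hp0⟩, ker_iff hSp]
      have htree := ht lres xres lres_symm P p0 hp0
      rw [xres_sum, Int.odd_coe_nat] at htree
      rw [← htree, hadm]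
      have : ∑ S ∈ P.powerset.filter (fun S => p0 ∈ S), Yd lres xres S * Yd lres xres (P \ S) =
          ∑ D ∈ P.powerset.filter (fun D => p0 ∈ D), zz D * zz (P \ D) := by
        apply sum_congr rfl
        intro D hD
        rw [mem_filter, mem_powerset] at hD
        rw [hz D hD.1, hz (P \ D) sdiff_subset]
      rw [this]
    · -- inert primes
      obtain ⟨q0, hq0⟩ := nonempty_iff_ne_empty.2 hr
      have hq0P : q0 ∈ P := (mem_filter.1 hq0).1
      have hr2 : 2 ≤ (inr P).card := by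
        have h2 : 0 < (inr P).card := card_pos.2 ⟨q0, hq0⟩
        have h3 := hP.2
        rw [Nat.even_iff] at h3
        omega
      have hre := hP.2
      rw [Nat.even_iff] at hre
      have hex : ex P = eE P + ((inr P).card / 2 - 1) := by
        unfold ex eE
        rw [if_neg hr, card_split hP]
        omega
      have hM : ∑ D ∈ adm P, RR D (P \ D) = 2 ^ eE P * (2 ^ ((inr P).card / 2 - 1) * N) := by
        rw [hN1, hex, pow_add]
        ring
      refine core h1 hb hP hq0P (fun D hD hG hn => ih D hD hG hn) hM ?_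
      have htp := tot_par hP hq0
      obtain ⟨T, hT⟩ : ∃ T, T = ∑ D ∈ (adm P).filter (fun D => q0 ∈ D), zz D * zz (P \ D) :=
        ⟨_, rfl⟩
      obtain ⟨C, hC⟩ : ∃ C, C = Yd lres (ind (inr P)) (spl P) := ⟨_, rfl⟩
      rw [← hT, ← hC] at htp
      rw [← hT]
      by_cases h2 : (inr P).card = 2
      · rw [card_two hq0 h2] at htp
        rw [hf2 P hP h2, ← hC] at hN2
        rw [h2]
        have e : (2 : ℤ) ^ (2 / 2 - 1) * N = N := by norm_num
        rw [e, hN2]
        clear * - htp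
        rw [Int.odd_iff, Int.odd_iff]
        push_cast at htp
        omega
      · have h3 := card_four hq0 (by omega)
        obtain ⟨c, hc⟩ : ∃ c : ℕ, c = ((inr P).powerset.filter
          (fun S => q0 ∈ S ∧ Even S.card)).card := ⟨_, rfl⟩
        rw [← hc] at h3 htp
        have hTe : Even T := by
          have h4 : (2 : ℤ) ∣ (c : ℤ) * C :=
            Dvd.dvd.mul_right (by exact_mod_cast even_iff_two_dvd.1 h3) _
          rw [even_iff_two_dvd]
          have := dvd_add htp h4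
          rwa [sub_add_cancel] at this
        have hMe : Even ((2 : ℤ) ^ ((inr P).card / 2 - 1) * N) := by
          rw [even_iff_two_dvd]
          apply Dvd.dvd.mul_right
          apply dvd_pow_self
          omega
        rw [← Int.not_even_iff_odd, ← Int.not_even_iff_odd]
        simp [hTe, hMe]

end Pool.Agent.Y232.ZJ
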